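import Pool.Agent.H29.LG.Targets

/-!
# Row ANBK of lgx_modules (helper32): the determinant inequality for the points
-/

set_option autoImplicit false

namespace Pool.Agent.H32.LG

open NumberField Height Finset Polynomial Pool.Agent.H24.RD Pool.Agent.H23.RDD Pool.Agent.H29.RQ
  Pool.Agent.H29.SX Pool.Agent.H29.LG

private theorem pt_pow {M : Type} [Field M] {r : ℕ} (γ : Fin r → M) (z : M) (q : ℕ)
    (n : Fin (r + 1) → ℤ) : pt (fun l => γ l ^ q) (z ^ q) n = (pt γ z n) ^ q := by
  unfold pt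
  rw [mul_pow, ← Finset.prod_pow]
  congr 1
  · rw [← zpow_natCast, ← zpow_natCast, ← zpow_mul, ← zpow_mul, mul_comm]
  · refine Finset.prod_congr rfl fun i _ => ?_
    change (γ i ^ q) ^ (n i.succ) = _
    rw [← zpow_natCast, ← zpow_natCast, ← zpow_mul, ← zpow_mul, mul_comm]

private theorem map_pt {M M' : Type} [Field M] [Field M'] (σ : M →+* M') {r : ℕ} (γ : Fin r → M)
    (z : M) (n : Fin (r + 1) → ℤ) : σ (pt γ z n) = pt (fun l => σ (γ l)) (σ z) n := by
  unfold pt
  rw [map_mul, map_zpow₀, map_prod]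
  congr 1
  refine Finset.prod_congr rfl fun i _ => ?_
  rw [map_zpow₀]

private theorem map_jc {M M' : Type} [Field M] [Field M'] (σ : M →+* M') {m : ℕ} (κ : Fin m → ℕ)
    (n : Fin m → ℤ) : σ (jc M κ n) = jc M' κ n := by
  unfold jc
  rw [map_prod]
  refine Finset.prod_congr rfl fun i _ => ?_
  rw [map_pow, map_intCast]

theorem pf_ANBK (h1 : T_FT) (h2 : T_DPM) (h3 : T_CLK) (h4 : T_RWK) (h5 : T_FLD) (h6 : T_RS) :
    T_ANBK := by
  classical
  intro F Ω _ _ _ _ _ _ _ r γ hγ Kb E hKfd hEfd hKst hEst K hK T hT hTE s t f pr q δ Φ hΦ0 hq0 hc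
    β g hβ X hX1 hX2 R d0 nn hCols
  obtain ⟨a, ν, σA, κA, σB, cB, haν, had, hA, hB, hlin, hspan⟩ :=
    h4 F Ω Kb r T β Φ q s t R d0 nn hΦ0 hq0 hCols
  obtain ⟨M0, h, s0, -, -, -, hβs, hs0, -, hmap, -⟩ := h1 F Ω E hEfd X.card β hβ ⟨X, le_rfl, hX1⟩
  -- the roots are the elements of `X`
  have hs0X : s0 = X := by
    ext x
    constructor
    · intro hx
      obtain ⟨-, -, σ, hσ, hσx⟩ := hs0 x hx
      rw [← hσx]
      exact hX1 σ hσ
    · intro hx
      obtain ⟨σ, -, hσE, hσx⟩ := hX2 x hx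
      have e1 : (h.map (algebraMap E Ω)).eval β = 0 := by
        rw [hmap, Polynomial.eval_prod]
        apply Finset.prod_eq_zero hβs
        simp
      have e2 : (h.map (algebraMap E Ω)).eval x = 0 := by
        rw [Polynomial.eval_map] at e1 ⊢
        have e3 := Polynomial.hom_eval₂ h (algebraMap E Ω) ((σ : Ω ≃+* Ω) : Ω →+* Ω) β
        rw [e1, map_zero] at e3
        have e4 : ((σ : Ω ≃+* Ω) : Ω →+* Ω).comp (algebraMap E Ω) = algebraMap E Ω := by
          ext z
          exact hσE _ z.2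
        rw [e4] at e3
        have e5 : ((σ : Ω ≃+* Ω) : Ω →+* Ω) β = x := hσx
        rw [e5] at e3
        exact e3.symm
      rw [hmap, Polynomial.eval_prod] at e2
      obtain ⟨y, hy, hy2⟩ := Finset.prod_eq_zero_iff.1 e2
      simp only [Polynomial.eval_sub, Polynomial.eval_X, Polynomial.eval_C] at hy2
      rw [sub_eq_zero] at hy2
      rw [hy2]
      exact hy
  rw [hs0X] at hmap
  have hfd : FiniteDimensional F (E ⊔ Kb : IntermediateField F Ω) := inferInstance
  obtain ⟨M, hMfd, hEKM, hXM, hMst⟩ := h5 F Ω (E ⊔ Kb) hfd (insert g X)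
  have hEM : E ≤ M := le_sup_left.trans hEKM
  have hKM : Kb ≤ M := le_sup_right.trans hEKM
  have hNF : NumberField M := NumberField.of_module_finite F M
  have hXM' : ∀ y ∈ X, y ∈ M := fun y hy => hXM y (Finset.mem_insert_of_mem hy)
  have hgM : g ∈ M := hXM g (Finset.mem_insert_self g X)
  have hβX : β ∈ X := hX1 AlgEquiv.refl fun z _ => rfl
  have hβM : β ∈ M := hXM' β hβX
  have hTM : ∀ l, T l ∈ M := fun l => hEM (hTE l)
  -- the points
  let ψB : Fin ν → Ω ≃ₐ[F] Ω := fun i => (Φ (cB i)).symm.trans (σB i)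
  let zA : Fin a → M := fun i => ⟨σA i β, hMst _ _ hβM⟩
  let TA : Fin a → Fin r → M := fun i l => ⟨σA i (T l), hMst _ _ (hTM l)⟩
  let zB : Fin ν → M := fun i => ⟨ψB i β, hMst _ _ hβM⟩
  let TB : Fin ν → Fin r → M := fun i l => ⟨ψB i (T l), hMst _ _ (hTM l)⟩
  have hptρ : ∀ (ρ : Ω ≃ₐ[F] Ω) (n : Fin (r + 1) → ℤ),
      ρ (pt T β n) = pt (fun l => ρ (T l)) (ρ β) n := fun ρ n =>
    map_pt ((ρ : Ω ≃+* Ω) : Ω →+* Ω) T β n
  -- rows
  have hrow : ∀ (ρ : Ω ≃ₐ[F] Ω) (z : M) (S : Fin r → M), (z : Ω) = ρ β →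
      (∀ l, (S l : Ω) = ρ (T l)) → ∀ (κ : Fin (r + 1) → ℕ) (j : Fin R),
      algebraMap M Ω (jc M κ (nn j) * pt S z (nn j)) = jc Ω κ (nn j) * ρ (pt T β (nn j)) := by
    intro ρ z S hz hS κ j
    have e1 := map_jc (algebraMap M Ω) κ (nn j)
    have e2 := map_pt (algebraMap M Ω) S z (nn j)
    have e3 : (fun l => algebraMap M Ω (S l)) = fun l => ρ (T l) := by
      funext l
      exact hS l
    have e4 : algebraMap M Ω z = ρ β := hz
    rw [e3, e4] at e2
    rw [map_mul, e1, e2, hptρ]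
  have hrowB : ∀ (i : Fin ν) (j : Fin R),
      algebraMap M Ω (pt (fun l => TB i l ^ (q (cB i))) (zB i ^ (q (cB i))) (nn j)) =
        σB i (yl F Ω Φ q T β (cB i) (nn j)) := by
    intro i j
    rw [pt_pow, map_pow]
    have e2 := map_pt (algebraMap M Ω) (TB i) (zB i) (nn j)
    have e3 : (fun l => algebraMap M Ω (TB i l)) = fun l => ψB i (T l) := rfl
    have e4 : algebraMap M Ω (zB i) = ψB i β := rfl
    rw [e3, e4] at e2
    rw [e2, ← hptρ]
    unfold yl
    rw [map_pow]
    rfl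
  have hX0 : ∀ y ∈ X, y ≠ 0 := by
    intro y hy h
    obtain ⟨σ, -, -, hσ⟩ := hX2 y hy
    rw [← hσ] at h
    exact hβ ((map_eq_zero σ).1 h)
  have hzB0 : ∀ i, zB i ≠ 0 := by
    intro i h
    have e1 : ψB i β = 0 := congrArg (fun z : M => (z : Ω)) h
    exact hβ ((map_eq_zero (ψB i)).1 e1)
  have hres := h2 M r t R a ν haν (fun i => pr (cB i)) (fun i => δ (cB i)) ?_ nn zA TA κA
    (fun i => zB i ^ (q (cB i))) (fun i l => TB i l ^ (q (cB i))) ?_ ?_ ?_
  · refine ⟨M, hNF, a, ν, σA, κA, ψB, cB, zA, TA, zB, TB, hgM, hMst, haν, had, ?_, ?_, ?_⟩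
    · intro i
      exact ⟨rfl, fun l => rfl, (hA i).2⟩
    · intro i
      exact ⟨rfl, fun l => rfl, (hB i).2.1, (hB i).2.2⟩
    · simp only [pt_pow] at hres
      exact hres
  · intro i
    obtain ⟨-, hgood, hδ, -, -⟩ := hc (cB i) (hB i).2.1 (hB i).2.2
    exact ⟨hgood.1, hδ.le⟩
  · intro i
    exact pow_ne_zero _ (hzB0 i)
  · -- linear independence
    rw [Fintype.linearIndependent_iff]
    intro c hcc
    have hlin' := (Fintype.linearIndependent_iff.1 hlin) (fun i => ((c i : M) : Ω)) ?_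
    · intro i
      exact Subtype.ext (hlin' i)
    · funext j
      have hcj := congrFun hcc j
      have e1 := congrArg (algebraMap M Ω) hcj
      rw [Finset.sum_apply, map_sum] at e1
      rw [Finset.sum_apply]
      rw [Pi.zero_apply, map_zero] at e1
      rw [Pi.zero_apply, ← e1]
      refine Finset.sum_congr rfl fun i _ => ?_
      rcases i with i | i
      · simp only [Pi.smul_apply, Sum.elim_inl, smul_eq_mul, map_mul]
        have e2 := hrow (σA i) (zA i) (TA i) rfl (fun _ => rfl) (κA i) j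
        rw [map_mul] at e2
        rw [← e2]
        rfl
      · simp only [Pi.smul_apply, Sum.elim_inr, smul_eq_mul, map_mul]
        have e2 := hrowB i j
        rw [← e2]
        rfl
  · -- places
    intro i v hv
    obtain ⟨hqc, hgood, hδ0, hδ1, hFro⟩ := hc (cB i) (hB i).2.1 (hB i).2.2
    have hθ : ∀ z ∈ Kb, ψB i (Φ (cB i) z) = z := by
      intro z hz
      change σB i ((Φ (cB i)).symm (Φ (cB i) z)) = z
      rw [AlgEquiv.symm_apply_apply]
      exact (hB i).1 z hz
    obtain ⟨τ, hτK, hτ1, hτ2⟩ := h3 F Ω Kb E hEst (pr (cB i)) f (δ (cB i)) hgood.1 hδ0 hδ1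
      (Φ (cB i)) hFro M hEM hKM hMst v hv (ψB i) hθ
    let U : Finset M := X.attach.image (fun y => ⟨τ y.1, hMst _ _ (hXM' _ y.2)⟩)
    have hU : ∀ u : M, u ∈ U ↔ ∃ y ∈ X, (u : Ω) = τ y := by
      intro u
      simp only [U, Finset.mem_image, Finset.mem_attach, true_and, Subtype.exists]
      constructor
      · rintro ⟨y, hy, rfl⟩
        exact ⟨y, hy, rfl⟩
      · rintro ⟨y, hy, h⟩
        exact ⟨y, hy, Subtype.ext h.symm⟩
    -- the `T` are units
    obtain ⟨v', kk, hkk, hv'⟩ := h6 F M v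
    have hv'p : v'.1 (pr (cB i) : F) < 1 := by
      by_contra hcon
      push Not at hcon
      have e1 := hv' (pr (cB i) : F)
      rw [map_natCast] at e1
      rw [e1] at hv
      have e2 : (1 : ℝ) ≤ (v'.1 (pr (cB i) : F)) ^ kk := Real.one_le_rpow hcon hkk.le
      linarith
    have hvT : ∀ l, v.1 (TB i l) = 1 := by
      intro l
      have e1 : (TB i l) ^ K = algebraMap F M (γ l) := by
        apply Subtype.ext
        change (ψB i (T l)) ^ K = algebraMap F Ω (γ l)
        rw [← map_pow, hT l]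
        exact (ψB i).commutes (γ l)
      have e2 : v.1 (TB i l) ^ K = 1 := by
        rw [← map_pow, e1, hv', (hgood.2 v' hv'p).2 l, Real.one_rpow]
      exact (pow_eq_one_iff_of_nonneg (v.1.nonneg _) hK.ne').1 e2
    refine ⟨fun l => ⟨τ (T l), hMst _ _ (hTM l)⟩, U, ?_, ?_, ?_, ?_⟩
    · intro u hu h0
      obtain ⟨y, hy, hy2⟩ := (hU u).1 hu
      rw [h0] at hy2
      have : τ y = 0 := by
        rw [← hy2]
        rfl
      exact hX0 y hy ((map_eq_zero τ).1 this)
    · intro l
      have e1 := hτ2 (T l) (TB i l) ⟨τ (T l), hMst _ _ (hTM l)⟩ (hTE l) rfl rfl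
      refine ⟨e1.1.trans (hvT l), ?_, ?_⟩
      · rw [map_pow, hvT, one_pow]
      · rw [hqc]
        exact e1.2 (hvT l).le
    · rw [hqc]
      exact hτ1 h X hXM' hmap U hU (zB i) ⟨β, hβX, rfl⟩
    · intro x hx u hu κ hκ
      obtain ⟨y, hy, hy2⟩ := (hU u).1 hu
      obtain ⟨σ, hσK, hσE, hσβ⟩ := hX2 y hy
      have hρK : ∀ z ∈ Kb, (σ.trans τ) z = z := by
        intro z hz
        change τ (σ z) = z
        rw [hσK z hz]
        exact hτK z hz
      have hsp := hspan (σ.trans τ) hρK κ hκ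
      let ℓ : (Fin R → Ω) →ₗ[Ω] Ω :=
        { toFun := fun v => ∑ j, ((x j : M) : Ω) * v j
          map_add' := by
            intro v v'
            simp only [Pi.add_apply, mul_add, Finset.sum_add_distrib]
          map_smul' := by
            intro c v
            simp only [Pi.smul_apply, smul_eq_mul, RingHom.id_apply, Finset.mul_sum]
            refine Finset.sum_congr rfl fun j _ => ?_
            ring }
      have hle : Submodule.span Ω (Set.range
          fun (i : Fin a) (j : Fin R) => jc Ω (κA i) (nn j) * σA i (pt T β (nn j))) ≤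
          LinearMap.ker ℓ := by
        rw [Submodule.span_le]
        rintro _ ⟨i', rfl⟩
        change ∑ j, ((x j : M) : Ω) * (jc Ω (κA i') (nn j) * σA i' (pt T β (nn j))) = 0
        have e1 := congrArg (algebraMap M Ω) (hx i')
        rw [map_sum, map_zero] at e1
        rw [← e1]
        refine Finset.sum_congr rfl fun j _ => ?_
        rw [← hrow (σA i') (zA i') (TA i') rfl (fun _ => rfl) (κA i') j, map_mul (algebraMap M Ω)]
        rfl
      have hker := hle hsp
      have hker' : ∑ j, ((x j : M) : Ω) *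
          (jc Ω κ (nn j) * (σ.trans τ) (pt T β (nn j))) = 0 := hker
      apply (algebraMap M Ω).injective
      rw [map_sum, map_zero, ← hker']
      refine Finset.sum_congr rfl fun j _ => ?_
      rw [← hrow (σ.trans τ) u (fun l => ⟨τ (T l), hMst _ _ (hTM l)⟩) (by
        rw [hy2]
        change τ y = τ (σ β)
        rw [hσβ]) (by
        intro l
        change τ (T l) = τ (σ (T l))
        rw [hσE _ (hTE l)]) κ j, map_mul (algebraMap M Ω)]
      rfl

end Pool.Agent.H32.LG
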