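import Pool.Agent.H29.LG.Targets

/-!
# Row RWK of lgx_modules (helper32): the rows
-/

set_option autoImplicit false

namespace Pool.Agent.H32.LG

open NumberField Height Finset Polynomial Pool.Agent.H24.RD Pool.Agent.H23.RDD Pool.Agent.H29.RQ
  Pool.Agent.H29.SX Pool.Agent.H29.LG

/-- an automorphism fixing `K`, as an automorphism over `K` -/
private noncomputable def upK {F Ω : Type} [Field F] [Field Ω] [Algebra F Ω]
    (K : IntermediateField F Ω) (τ : Ω ≃ₐ[F] Ω) (h : ∀ z ∈ K, τ z = z) : Ω ≃ₐ[K] Ω :=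
  AlgEquiv.ofRingEquiv (f := (τ : Ω ≃+* Ω)) fun z => h z.1 z.2

theorem pf_RWK (h : T_ROW) : T_RWK := by
  intro F Ω _ _ _ _ _ _ _ Kb r T β Φ q s t R d0 nn hΦ hq hC
  have : Algebra.IsAlgebraic Kb Ω := Algebra.IsAlgebraic.tower_top (K := F) Kb
  have : IsAlgClosure Kb Ω := ⟨inferInstance, inferInstance⟩
  have hgal : IsGalois Kb Ω := inferInstance
  have hy0 : ∀ n : Fin (r + 1) → ℤ, yl F Ω Φ q T β 0 n = pt T β n := by
    intro n
    unfold yl
    rw [hq, pow_one]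
    have h1 : (Φ 0).symm (Φ 0 (pt T β n)) = pt T β n := (Φ 0).symm_apply_apply _
    rw [hΦ] at h1
    exact h1
  obtain ⟨a, ν, f, g, h1, h2, h3, h4⟩ := h Kb Ω R d0
    {κ : Fin (r + 1) → ℕ // ∑ l, κ l < t} {c : ℕ // 1 ≤ c ∧ c ≤ s}
    (fun κ j => jc Ω κ.1 (nn j) * yl F Ω Φ q T β 0 (nn j))
    (fun c j => yl F Ω Φ q T β c.1 (nn j))
    (by
      intro x hx1 hx2
      apply hC.inj x
      · intro κ hκ
        exact hx1 ⟨κ, hκ⟩
      · intro c hc1 hc2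
        exact hx2 ⟨c, hc1, hc2⟩)
    (JK Kb t (yl F Ω Φ q T β 0) nn)
    (fun x hx i => hx i.1 i.2) hC.dim
  have hfix : ∀ (σ : Ω ≃ₐ[Kb] Ω), ∀ z ∈ Kb, σ z = z := fun σ z hz => σ.commutes ⟨z, hz⟩
  have hjc : ∀ (σ : Ω ≃ₐ[Kb] Ω) (κ : Fin (r + 1) → ℕ) (n : Fin (r + 1) → ℤ),
      σ (jc Ω κ n) = jc Ω κ n := by
    intro σ κ n
    unfold jc
    rw [map_prod]
    refine Finset.prod_congr rfl fun l _ => ?_
    rw [map_pow, map_intCast]
  have hu : ∀ (σ : Ω ≃ₐ[Kb] Ω) (κ : Fin (r + 1) → ℕ) (j : Fin R),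
      σ (jc Ω κ (nn j) * yl F Ω Φ q T β 0 (nn j)) =
      jc Ω κ (nn j) * (σ.restrictScalars F) (pt T β (nn j)) := by
    intro σ κ j
    rw [map_mul, hjc, hy0]
    rfl
  have h8 : (fun (i : Fin a) (j : Fin R) => (f i).1
      (jc Ω (f i).2.1 (nn j) * yl F Ω Φ q T β 0 (nn j))) =
      fun (i : Fin a) (j : Fin R) => jc Ω (f i).2.1 (nn j) *
        ((f i).1.restrictScalars F) (pt T β (nn j)) := by
    funext i j
    exact hu _ _ _
  refine ⟨a, ν, fun i => (f i).1.restrictScalars F, fun i => (f i).2.1,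
    fun i => (g i).1.restrictScalars F, fun i => (g i).2.1, h1, h2,
    fun i => ⟨fun z hz => hfix _ z hz, (f i).2.2⟩,
    fun i => ⟨fun z hz => hfix _ z hz, (g i).2.2.1, (g i).2.2.2⟩, ?_, ?_⟩
  · rw [h8] at h3
    exact h3
  · intro σ hσ κ hκ
    have h5 := h4 (upK Kb σ hσ) ⟨κ, hκ⟩
    simp only [] at h5
    rw [h8] at h5
    have h7 : (fun j => (upK Kb σ hσ) (jc Ω κ (nn j) * yl F Ω Φ q T β 0 (nn j))) =
        fun j => jc Ω κ (nn j) * σ (pt T β (nn j)) := by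
      funext j
      exact hu _ _ _
    rw [h7] at h5
    exact h5

end Pool.Agent.H32.LG
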